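import Pool.Agent.Lib.MP_fed0c4_co.Main

open Pool.Agent.Lib.MP_fed0c4_co

namespace Pool.Agent.Results.MP_fed0c4_co.Superlinear

/-- There is a root degree `d ≥ 1` such that `M_d(r) / r` tends to infinity as `r → ∞`. -/
theorem result :
    ∃ d : ℕ, 1 ≤ d ∧
      Filter.Tendsto (fun r : ℕ => ((maxMinDiam d r).toNat : ℝ) / (r : ℝ)) Filter.atTop
        Filter.atTop :=
  ⟨22, by norm_num, tendsto_maxMinDiam⟩

end Pool.Agent.Results.MP_fed0c4_co.Superlinear
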